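import Pool.Agent.Helper74.Bez.Final2

/-!
Linearised incidence system of a determinantal hypersurface, at an arbitrary smooth point: the solution
`(y', s', k', h')` satisfies `dG(y') = 0` and `h' L_v k + h L_v k'` is the derivative of `∂_v G / ∂_none G`.
-/

set_option autoImplicit false

namespace Bez3
open Bez Bez2
open Finset Matrix

variable {K : Type*} [Field K] {μ ν : Type*} [Fintype μ] [DecidableEq μ] [Fintype ν] [DecidableEq ν]

/-- derivative of `∂_v G` at `y` in the direction `u` -/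
noncomputable def hs (G : MvPolynomial (Option ν) K) (y u : Option ν → K) (v : Option ν) : K :=
  ∑ j, MvPolynomial.eval y (MvPolynomial.pderiv j (MvPolynomial.pderiv v G)) * u j

theorem lin_gen [Infinite K] (A0 : Matrix μ μ K) (L : Option ν → Matrix μ μ K)
    (G : MvPolynomial (Option ν) K) (hdet : ∀ y, (pen A0 L y).det = MvPolynomial.eval y G)
    (y : Option ν → K) (k h w : μ → K) (c : K) (hc : c ≠ 0)
    (hadj : (pen A0 L y).adjugate = c • vecMulVec k h)
    (hk : pen A0 L y *ᵥ k = 0) (hh : h ᵥ* pen A0 L y = 0)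
    (hker : ∀ k', pen A0 L y *ᵥ k' = 0 → ∃ a : K, k' = a • k)
    (hker' : ∀ h', h' ᵥ* pen A0 L y = 0 → ∃ b : K, h' = b • h)
    (hT : h ⬝ᵥ (L none *ᵥ k) = 1) (hw : w ⬝ᵥ k = 1)
    (y' : Option ν → K) (s' : K) (k' h' : μ → K)
    (e1 : (∑ v, y' v • L v) *ᵥ k + pen A0 L y *ᵥ k' = 0)
    (e2 : h ᵥ* (∑ v, y' v • L v) + h' ᵥ* pen A0 L y = s' • w)
    (e4 : w ⬝ᵥ k' = 0) (e5 : h' ⬝ᵥ (L none *ᵥ k) + h ⬝ᵥ (L none *ᵥ k') = 0) :
    s' = 0 ∧ (∑ v, y' v * MvPolynomial.eval y (MvPolynomial.pderiv v G)) = 0 ∧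
    (∀ v, hs G y y' v = hs G y y' none * (h ⬝ᵥ (L v *ᵥ k)) +
      c * (h' ⬝ᵥ (L v *ᵥ k) + h ⬝ᵥ (L v *ᵥ k'))) ∧
    (y' = 0 → k' = 0 ∧ h' = 0) := by
  set A := pen A0 L y with hA
  have hpd : ∀ v, MvPolynomial.eval y (MvPolynomial.pderiv v G) = c * (h ⬝ᵥ (L v *ᵥ k)) := by
    intro v
    rw [← tr_L A0 L G hdet, ← hA, hadj, Matrix.smul_mul, trace_smul, vecMulVec_mul, trace_vecMulVec,
      dotProduct_comm, ← dotProduct_mulVec, smul_eq_mul]
  have hsum : h ⬝ᵥ ((∑ v, y' v • L v) *ᵥ k) = ∑ v, y' v * (h ⬝ᵥ (L v *ᵥ k)) := by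
    rw [sum_mulVec, dotProduct_sum]
    exact Finset.sum_congr rfl fun v _ => by rw [smul_mulVec, dotProduct_smul, smul_eq_mul]
  have hhA : ∀ z, h ⬝ᵥ (A *ᵥ z) = 0 := by
    intro z
    rw [dotProduct_mulVec, hh, zero_dotProduct]
  have ht' : h ⬝ᵥ ((∑ v, y' v • L v) *ᵥ k) = 0 := by
    have := congrArg (fun z => h ⬝ᵥ z) e1
    simp only [dotProduct_add, dotProduct_zero, hhA, add_zero] at this
    exact this
  have hs' : s' = 0 := by
    have := congrArg (fun z => z ⬝ᵥ k) e2
    simp only [add_dotProduct, smul_dotProduct, hw, smul_eq_mul, mul_one] at this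
    rw [← dotProduct_mulVec, ht', ← dotProduct_mulVec, hk, dotProduct_zero, add_zero] at this
    exact this.symm
  subst hs'
  simp only [zero_smul] at e2
  -- the derivative of the adjugate
  set D := dadj A (∑ v, y' v • L v) with hD
  have htr : (A.adjugate * ∑ v, y' v • L v).trace = 0 := by
    rw [hadj, Matrix.smul_mul, vecMulVec_mul, trace_smul, trace_vecMulVec, dotProduct_comm,
      ← dotProduct_mulVec, ht', smul_zero]
  have hDA := dadj_mul A (∑ v, y' v • L v)
  have hAD := mul_dadj A (∑ v, y' v • L v)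
  rw [htr, zero_smul] at hDA hAD
  set B := D - c • (vecMulVec k' h + vecMulVec k h') with hB
  have hAB : A * B = 0 := by
    rw [hB, Matrix.mul_sub, Matrix.mul_smul, Matrix.mul_add, mul_vecMulVec, mul_vecMulVec, hk,
      zero_vecMulVec, add_zero]
    have h1 : A * D = -(c • vecMulVec ((∑ v, y' v • L v) *ᵥ k) h) := by
      rw [← mul_vecMulVec, ← Matrix.mul_smul, ← hadj]
      exact eq_neg_of_add_eq_zero_left hAD
    have h2 : A *ᵥ k' = -((∑ v, y' v • L v) *ᵥ k) := eq_neg_of_add_eq_zero_right e1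
    rw [h1, h2, neg_vecMulVec, smul_neg, sub_self]
  have hBA : B * A = 0 := by
    rw [hB, Matrix.sub_mul, Matrix.smul_mul, Matrix.add_mul, vecMulVec_mul, vecMulVec_mul, hh,
      vecMulVec_zero, zero_add]
    have h1 : D * A = -(c • vecMulVec k (h ᵥ* (∑ v, y' v • L v))) := by
      rw [← vecMulVec_mul, ← Matrix.smul_mul, ← hadj]
      exact eq_neg_of_add_eq_zero_left hDA
    have h2 : h' ᵥ* A = -(h ᵥ* (∑ v, y' v • L v)) := eq_neg_of_add_eq_zero_right e2
    rw [h1, h2, vecMulVec_neg, smul_neg, sub_self]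
  -- `B = k z` with `z` in the left kernel
  have hcol : ∀ j, ∃ z : K, (fun i => B i j) = z • k := by
    intro j
    apply hker
    ext i
    have := congrFun (congrFun hAB i) j
    rw [mul_apply] at this
    exact this
  choose z hz using hcol
  have hBc : B = vecMulVec k z := by
    ext i j
    have := congrFun (hz j) i
    simp only [Pi.smul_apply, smul_eq_mul] at this
    rw [this, vecMulVec_apply, mul_comm]
  have hk0 : k ≠ 0 := by
    rintro rfl
    simp at hw
  have hzA : z ᵥ* A = 0 := by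
    obtain ⟨i0, hi0⟩ := Function.ne_iff.1 hk0
    rw [hBc, vecMulVec_mul] at hBA
    ext j
    have := congrFun (congrFun hBA i0) j
    rw [vecMulVec_apply, Matrix.zero_apply] at this
    exact (mul_eq_zero.1 this).resolve_left hi0
  obtain ⟨b, hb⟩ := hker' z hzA
  -- Hessian
  have hH : ∀ v, hs G y y' v = b * (h ⬝ᵥ (L v *ᵥ k)) + c * (h' ⬝ᵥ (L v *ᵥ k) + h ⬝ᵥ (L v *ᵥ k')) := by
    intro v
    have h0 := tr_dadj A0 L G hdet y y' v
    rw [← hA, ← hD] at h0
    unfold hs
    rw [← h0]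
    have hDB : D = B + c • (vecMulVec k' h + vecMulVec k h') := by rw [hB, sub_add_cancel]
    have tv : ∀ (a d : μ → K), (vecMulVec a d * L v).trace = d ⬝ᵥ (L v *ᵥ a) := by
      intro a d
      rw [vecMulVec_mul, trace_vecMulVec, dotProduct_comm, ← dotProduct_mulVec]
    rw [hDB, hBc, hb, Matrix.add_mul, Matrix.smul_mul, Matrix.add_mul, trace_add, trace_smul, trace_add,
      tv, tv, tv, smul_dotProduct]
    simp only [smul_eq_mul]
    ring
  have hbn : b = hs G y y' none := by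
    have := hH none
    rw [hT, e5, mul_zero, mul_one, add_zero] at this
    exact this.symm
  rw [hbn] at hH
  refine ⟨rfl, ?_, hH, ?_⟩
  · simp only [hpd]
    rw [hsum] at ht'
    have : ∑ v, y' v * (c * (h ⬝ᵥ (L v *ᵥ k))) = c * ∑ v, y' v * (h ⬝ᵥ (L v *ᵥ k)) := by
      rw [Finset.mul_sum]
      exact Finset.sum_congr rfl fun v _ => by ring
    rw [this, ht', mul_zero]
  · intro hy'
    subst hy'
    simp only [Pi.zero_apply, zero_smul, Finset.sum_const_zero, zero_mulVec, vecMul_zero, zero_add] at e1 e2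
    obtain ⟨a, ha⟩ := hker k' e1
    have ha0 : a = 0 := by
      rw [ha, dotProduct_smul, hw, smul_eq_mul, mul_one] at e4
      exact e4
    obtain ⟨b', hb'⟩ := hker' h' e2
    have hk'0 : k' = 0 := by rw [ha, ha0, zero_smul]
    have hb0 : b' = 0 := by
      rw [hk'0, hb', mulVec_zero, dotProduct_zero, add_zero, smul_dotProduct, hT, smul_eq_mul, mul_one] at e5
      exact e5
    exact ⟨hk'0, by rw [hb', hb0, zero_smul]⟩

end Bez3
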